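import Mathlib
import Pool.Agent.H84.ZB

namespace Pool.Agent.Results.MP_2b4c46_gt.No

open Pool.Agent.H84.ZDefs Pool.Agent.H84.ZB

theorem result : ∃ b : ℕ → ℕ, IsD b ∧ dual (sup b) = HH b ∧
    ∃ t : TopologicalSpace ℤ, @IsTopologicalAddGroup ℤ t _ ∧ LQC t ∧ dual t = HH b ∧
      ¬ ∀ U, @IsOpen ℤ t U → @IsOpen ℤ (sup b) U :=
  ⟨b2, b2_D, dual_sup, _, group_uc _, lqc_uc _, dual_A2, not_le⟩

end Pool.Agent.Results.MP_2b4c46_gt.No
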